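import Pool.Agent.Q17.Bidual.Main

/-!
# MP_e4445d_al, Q1: a positive answer

For every abelian group `G` with a norm (`NormedAddCommGroup G`), the weight of the metric bidual
`G'' = MDual (MDual G)` is at least the weight of the metric dual `G' = MDual G`.

`MDual G` is the group of continuous homomorphisms `G → ℝ/ℤ` (`UnitAddCircle`, whose norm is the
distance to the nearest integer) with the norm
`‖χ‖ = inf {M > 0 : ‖χ x‖ ≤ M ‖x‖ for all x}`, and `weight X` is the least cardinality of a base
of the topology of `X`.
-/

namespace Pool.Agent.Results.MP_e4445d_al

universe u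

open Q17.Bidual

theorem WeightBidual.result :
    ∀ (G : Type u) [NormedAddCommGroup G], weight (MDual G) ≤ weight (MDual (MDual G)) :=
  fun G _ => Q17.Bidual.main G

end Pool.Agent.Results.MP_e4445d_al
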